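import Mathlib
import Pool.Agent.TH118.ZC.Iso

/-!
# The motivic Sato-Tate conjecture for motives of odd weight with isolated pairs of eigenvalues

Let `k` be a finitely generated field of characteristic zero, `M` a motive over `k` (for motivated or
for absolute Hodge cycles), pure of odd weight `n`, with a polarization `φ`, which is an
alternating form on `ω(M)`. Let `K` be the algebraic closure of `ℚ_ℓ`, `X = K ⊗ ω(M)` the étale
realization, `ρ` the action of the Galois group `Γ` of `k` on `X`, `χ` the `(-n)`-th power of the
cyclotomic character, `ω` the form on `X` given by `φ`, so that `ω(g u, g v) = χ(g) ω(u, v)`.  Let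
`𝒢` be the group of the `K`-valued points of the motivic Galois group `𝒢_k(M)`; it contains
`ρ(Γ)` and is contained in the group of the similitudes of `ω`.

Theorem.  Suppose that `X` is irreducible for all open subgroups of `Γ`, that some element of
`Γ` has two eigenvalues whose quotient is not a root of unity (`HasHyperbolic`; this always holds
in this situation if `X` has dimension at least two, as otherwise all elements of the Lie
algebra of the image would have just one eigenvalue), and that there is an element `γ` of `Γ` (in
applications: of an inertia group), of finite order on `X`, whose eigenvalues are divided into two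
nonempty sets `A` and `B`, both stable under the duality `α ↦ χ(γ) / α`, such that for all `α` in `A`
and `β` in `B`

* `α` or `β` is a simple eigenvalue;
* the only pairs `(α', β')` of eigenvalues with `β' / α' = β / α` are `(α, β)` and the dual
  pair `(χ(γ) / β, χ(γ) / α)`;
* all triples `α', α' (β / α), α' (β / α) ^ 2` of eigenvalues are self-dual, and the outer
  eigenvalues are simple

(`HasIsolatedPair`).  Then `G_{ℓ,k}(M) = 𝒢_k(M)_{ℚ_ℓ}`, and both groups are the full group
`GSp(ω(M), φ)`.  So the kernels of the multiplier, `G_{1,ℓ,k}(M)` and `𝒢_{1,k}(M)_{ℚ_ℓ}`, are both equal
to `Sp(ω(M), φ)`.  The same holds over all finite extensions of `k`.  In the theorem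
the group `𝒢` is any set of endomorphisms between the image of `Γ`, or of a subgroup `Δ` of finite index,
and the group of similitudes; the conclusion is the equality of the Zariski closures.  With
`𝒢 = GSp(X, ω)` it says that the image is Zariski dense in `GSp(X, ω)`.

Example.  Let `Y` be a smooth projective variety of odd dimension `n` over a number field (a curve,
or a hypersurface), `M` its primitive cohomology in degree `n`, and let `v` be
a place, not dividing `ℓ`, at which `Y` has a regular model whose special fibre has exactly one
singular point, of type `A_{2m}`, given in the completion by
`x ^ (2 m + 1) + x_1 ^ 2 + ⋯ + x_n ^ 2 = t`, `t` a uniformizer, the residue characteristic prime to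
`2 (2 m + 1)`.  A generator of the tame inertia group at `v` has finite order and the simple
eigenvalues `-ζ ^ j`, `0 < j < 2 m + 1`, `ζ` of order `2 m + 1`, and `1` with multiplicity
`dim X - 2 m`.  With `A = {1}` all conditions hold, if `dim X` is greater than `2 m`: `β = -ζ ^ j`
has even order and all quotients of two eigenvalues different from `1` have odd order.  So ONE such
place is enough.  Here `γ - 1` can be of large rank, unlike in the theorem on small inertia
(`MP_bbcdf5_ag.SmallInertiaMonodromy`), where the rank is bounded by the square root of the
dimension of `X` (but there is no condition on the quotients).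

The proof.  Let `E` be the space of the functions on `Γ` that are polynomials of degree at most `D`
in the matrix entries of `ρ`, with the action by right translations, and let `𝔤` be the Lie algebra of
the operators `Y` on `X`, skew for `ω`, for which there is an operator `Y'` on `E` such that the
pair `(Y, Y')` is compatible with all equivariant multilinear maps from `X` to `E`.  The Jordan
decomposition of the hyperbolic element on `X` and `E` gives such a pair, where `Y` is not a scalar,
though perhaps not skew; its components for the conjugation by `γ` are skew if the eigenvalue
is not one.  By an argument with the sums of eigenspaces for `A` and for `B`, one of the components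
that map an eigenspace of `A` to one of `B`, or conversely, is not zero, for some conjugate of `Y`; it
has square zero and rank one or two.  So `𝔤` is the symplectic Lie algebra.  Then one shows that the
Zariski closure contains all transvections.
-/

namespace Pool.Agent.Results.MP_d61fbb_ag.IsolatedPairsMonodromy

open Module Pool.Agent.W522.U Pool.Agent.TH118.ZC

/-- **The image is Zariski dense in the group of similitudes.** -/
theorem result {K : Type} [Field K] [CharZero K] [IsAlgClosed K]
    {X : Type} [AddCommGroup X] [Module K X] [FiniteDimensional K X]
    {Γ : Type} [Group Γ] (ρ : Representation K Γ X) (χ : Γ →* K)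
    (ω : X →ₗ[K] X →ₗ[K] K) (halt : ∀ v, ω v v = 0) (hnondeg : ∀ u, (∀ v, ω u v = 0) → u = 0)
    (hω : ∀ g u v, ω (ρ g u) (ρ g v) = χ g * ω u v) (hχ : (Set.range χ).Infinite)
    (hirr : SI ρ (⊤ : Submodule K X)) (hiso : HasIsolatedPair ρ χ) (hhyp : HasHyperbolic ρ)
    {ι : Type} [Fintype ι] (b : Basis ι K X) (Δ : Subgroup Γ) (hΔ : Δ.FiniteIndex)
    (𝒢 : Set (End K X)) (h1 : ρ '' Δ ⊆ 𝒢) (h2 : 𝒢 ⊆ similitudes ω) :
    zariskiClosure b (ρ '' Δ) = zariskiClosure b 𝒢 :=
  iso_closure b halt hnondeg hω hχ hirr hiso hhyp hΔ h1 h2

end Pool.Agent.Results.MP_d61fbb_ag.IsolatedPairsMonodromy
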