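import Pool.Agent.TH125.Mtg.Iso

/-!
# The motivic Sato–Tate conjecture: the symplectic blocks of a motive of odd weight

Let `k` be a finitely generated field of characteristic zero, `Γ` its Galois group, `ℓ` a prime, `K`
an extension of `ℚ_ℓ`.  Let `M` be a motive over `k`, pure of odd weight `n`, with a polarization,
`V = K ⊗ ω(M)` with the alternating form `B` given by the polarization; `Γ` acts on `V` by
similitudes of `B` with multiplier `μ`.  Let `N` be any motive, `E = K ⊗ ω(N)`.  Assume that `V` is
spanned by vanishing classes: vectors `d` such that some element `g` of `Γ` acts on `V` by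
`v ↦ v + c B(d, v) d` with `c ≠ 0` and trivially on `E` (Picard-Lefschetz formula at a place where
`M` comes from a variety with one ordinary double point and `N` has good reduction).

The theorem determines the group `G_{1,ℓ}(M)` (and `G_{1,ℓ}(M ⊕ N)` relative to `N`) after a finite
extension of `k`, *over the field* `K` (no algebraic closure is needed): there are an orthogonal
decomposition of `V` into nonzero subspaces `U_i` and an open subgroup `Δ₀` such that for all open
subgroups `Δ` of `Δ₀`

* the isometries in the Zariski closure of the image of `Δ` in `End(V)`, i.e. the `K`-points of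
  `G_{1,ℓ}(M)` over the field fixed by `Δ`, are exactly the elements of the product of the groups
  `Sp(U_i)`;
* the pairs `(t, 1)`, `t` in the product of the `Sp(U_i)`, are in the Zariski closure of the image of
  `Δ` in `End(V ⊕ E)`: the group `G_{1,ℓ}(M)` splits off from the monodromy group of `M ⊕ N`.

Hence a set `𝒢` of isometries (for example the `K`-points of `𝒢_{1,k}(M)°`, or of the Hodge group of
`M`) is contained in `G_{1,ℓ}(M)` over all finite extensions of `k` if and only if it commutes with
all endomorphisms of `V` which commute with an open subgroup of `Γ`.  This is the motivic Sato–Tate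
conjecture for `M` up to connected components, reduced to the Tate classes in `M ⊗ M^∨`.
-/

namespace Pool.Agent.Results.MP_d61fbb_ag.SymplecticBlocks

open Module Pool.Agent.TH125.Mtg

/-- **Theorem.** -/
theorem result {K : Type} [Field K] [CharZero K]
    {V E : Type} [AddCommGroup V] [Module K V] [AddCommGroup E] [Module K E]
    {ι κ : Type} [Fintype ι] [Fintype κ] (bV : Basis ι K V) (bE : Basis κ K E)
    {Γ : Type} [Group Γ] (ρ : Representation K Γ V) (σ : Representation K Γ E)
    (B : V →ₗ[K] V →ₗ[K] K) (halt : ∀ v, B v v = 0) (hnondeg : ∀ u, (∀ v, B u v = 0) → u = 0)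
    (μ : Γ → K) (hμ : ∀ g, μ g ≠ 0) (hB : ∀ g u v, B (ρ g u) (ρ g v) = μ g * B u v)
    (hspan : Submodule.span K (vanishingClasses B ρ σ) = ⊤) :
    ∃ (r : ℕ) (U : Fin r → Submodule K V) (Δ₀ : Subgroup Γ), Δ₀.FiniteIndex ∧
      IsOrthDecomposition B U ∧
      (∀ Δ : Subgroup Γ, Δ.FiniteIndex → ∀ t ∈ isometries B ∩ preserving U,
        t.prodMap 1 ∈ zariskiClosure (bV.prod bE) (onSum (images ρ σ Δ))) ∧
      (∀ Δ : Subgroup Γ, Δ.FiniteIndex → Δ ≤ Δ₀ →
        isometries B ∩ zariskiClosure bV (ρ '' Δ) = isometries B ∩ preserving U) ∧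
      ∀ 𝒢 ⊆ isometries B,
        ((∀ Δ : Subgroup Γ, Δ.FiniteIndex → 𝒢 ⊆ zariskiClosure bV (ρ '' Δ)) ↔
          ∀ x ∈ 𝒢, ∀ f ∈ potentialCommutant ρ, f * x = x * f) := by
  have := Module.Finite.of_basis bV
  obtain ⟨r, U, Δ₀, hΔ₀, hU, hst, hcl⟩ := exists_blocks bV bE halt hnondeg hμ hB hspan
  refine ⟨r, U, Δ₀, hΔ₀, hU, fun Δ hΔ t ht => hcl Δ hΔ t ht.1 ht.2, ?_, ?_⟩
  · intro Δ hΔ hle
    ext t
    constructor
    · rintro ⟨ht, ht'⟩
      refine ⟨ht, fun i x hx => closure_preserving bV ht' ?_ hx⟩
      rintro _ ⟨g, hg, rfl⟩ u hu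
      exact hst g (hle hg) i u hu
    · rintro ⟨ht, ht'⟩
      exact ⟨ht, back_fst bV bE (hcl Δ hΔ t ht ht')⟩
  · intro 𝒢 h𝒢
    constructor
    · rintro h x hx f ⟨Δ, hΔ, hf⟩
      refine closure_commute bV (h Δ hΔ hx) ?_
      rintro _ ⟨g, hg, rfl⟩
      exact hf g hg
    · intro h Δ hΔ x hx
      exact back_fst bV bE (hcl Δ hΔ x (h𝒢 hx)
        (preserving_of_commute hU.indep hU.sup hΔ₀ hst (h x hx)))

end Pool.Agent.Results.MP_d61fbb_ag.SymplecticBlocks
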