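import Mathlib
import Pool.Agent.TH118.OR.Clos

/-!
# The motivic Sato-Tate conjecture for motives of even weight with a unipotent element of rank two

Let `k` be a finitely generated field of characteristic zero, `M` a motive over `k` (for motivated or
for absolute Hodge cycles), pure of even weight `n` different from zero, with a polarization `φ`,
which is a symmetric form on `ω(M)`. Let `K` be the algebraic closure of `ℚ_ℓ`, `X = K ⊗ ω(M)` the étale
realization, `ρ` the action of the Galois group `Γ` of `k` on `X`, `χ` the `(-n)`-th power of the
cyclotomic character, `ω` the form on `X` given by `φ`, so that `ω(g u, g v) = χ(g) ω(u, v)`.  Let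
`𝒢` be the group of the `K`-valued points of the motivic Galois group `𝒢_k(M)`; it contains
`ρ(Γ)` and is contained in the group of the similitudes of `ω`.  The proper similitudes, the
products of scalars and of isometries of determinant one, are the identity component `GO°` of
the group `GO` of the similitudes; if the dimension of `X` is odd all similitudes are proper.

Theorem.  Suppose that `X` is irreducible for all open subgroups of `Γ`, and that there is an
element `γ` of `Γ` (in applications: of an inertia group) which acts on `X` as a unipotent map with one
Jordan block of size three, all others of size one: `χ(γ) = 1`, `(ρ(γ) - 1) ^ 3 = 0`,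
`(ρ(γ) - 1) ^ 2 ≠ 0` and the rank of `ρ(γ) - 1` is two (`HasBlockThree`).  Then `G_{ℓ,k}(M)`, and the same
group for every finite extension of `k`, contains all proper similitudes.  So

* `G_{ℓ,k}(M)` and `𝒢_k(M)` have the same identity component `GO°(ω(M), φ)`;
* if the rank of `M` is odd, `G_{ℓ,k}(M) = 𝒢_k(M)_{ℚ_ℓ} = GO(ω(M), φ)`, and `G_{1,ℓ,k}(M)` and
  `𝒢_{1,k}(M)_{ℚ_ℓ}` are both equal to the orthogonal group `O(ω(M), φ)`: Q1 holds for `M`;
* if the rank is even, this holds if `𝒢_k(M)` is connected, with the special orthogonal group in
  place of the orthogonal group.

Example.  Let `Y` be a smooth projective surface over a number field, `M` the orthogonal complement of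
the classes of curves in the cohomology of degree two, of any geometric genus, and let `v` be a place,
not dividing `ℓ`, at which the reduction of `Y` is like the degenerations of K3 surfaces
of type III: `N ^ 2` is not zero and `N` has rank two, `N` the logarithm of the unipotent part of
the inertia group.  With a semistable model this means that the cohomology in degree two of
the dual complex of the special fibre has dimension one, and that the primitive part of the graded
piece of weight three of the weight filtration is zero.  For instance this is so, for large residue
characteristic, if `Y` has a model at `v` whose special fibre has only one singular point, a cusp given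
by `x y z + x ^ p + y ^ q + z ^ r = t` with `1 / p + 1 / q + 1 / r < 1` in the completion, `t` a
uniformizer.  ONE such place is enough.

For surfaces with `p_g = 1` this is contained in the Mumford-Tate conjecture, which is known for
them (Tankeev, André, Moonen); nothing was known for this type of reduction for motives which are
not of abelian type.  If `N ^ 2 = 0` the statement would not be true: the tensor products
of a symplectic representation and one of dimension two, the spin representation of
dimension eight and the representation of `G_2` of dimension seven contain such elements.

The proof.  The logarithm `N` of `γ` is in the Lie algebra `𝔤` of the Zariski closure, in the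
sense that it extends to an operator on the space of the functions on `Γ` which are polynomials of
bounded degree in the matrix entries of `ρ`, compatible with all equivariant multilinear maps.
Let `N ^ 2 x = e ≠ 0`, `p = N x`.  Then `N` is a multiple of `e ∧ p`, `e` is isotropic and orthogonal
to `p`, and `p` is not isotropic.  So `e ∧ [Y, e]` is in `𝔤` for all `Y` in `𝔤`, and from this, with three
vectors of the orbit of `e` in general position (which exist by strong irreducibility), it
follows that `𝔤` is the orthogonal Lie algebra.  Finally the Zariski closure contains the tori
with the Lie algebras `K e' ∧ f'`, `e'` and `f'` isotropic, and the products of two reflections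
are products of elements of such tori.
-/

namespace Pool.Agent.Results.MP_d61fbb_ag.UnipotentBlockThree

open Module Pool.Agent.W522.U Pool.Agent.TH118.ZC Pool.Agent.TH118.OR

/-- **The Zariski closure contains all proper similitudes.** -/
theorem result {K : Type} [Field K] [CharZero K] [IsAlgClosed K]
    {X : Type} [AddCommGroup X] [Module K X] [FiniteDimensional K X]
    {Γ : Type} [Group Γ] (ρ : Representation K Γ X) (χ : Γ →* K)
    (ω : X →ₗ[K] X →ₗ[K] K) (hsymm : ∀ u v, ω u v = ω v u)
    (hnondeg : ∀ u, (∀ v, ω u v = 0) → u = 0)
    (hω : ∀ g u v, ω (ρ g u) (ρ g v) = χ g * ω u v) (hχ : (Set.range χ).Infinite)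
    (hirr : SI ρ (⊤ : Submodule K X)) (hthree : HasBlockThree ρ χ)
    {ι : Type} [Fintype ι] (b : Basis ι K X) (Δ : Subgroup Γ) (hΔ : Δ.FiniteIndex) :
    properSimilitudes ω ⊆ zariskiClosure b (ρ '' Δ) ∧
      ∀ 𝒢 : Set (End K X), ρ '' Δ ⊆ 𝒢 → 𝒢 ⊆ similitudes ω →
        (Odd (finrank K X) ∨ 𝒢 ⊆ properSimilitudes ω) →
        zariskiClosure b (ρ '' Δ) = zariskiClosure b 𝒢 := by
  have h := closure_proper b hsymm hnondeg hω hχ hirr (Or.inl hthree) hΔ
  exact ⟨h, fun 𝒢 h1 h2 h3 => closure_eq' b hsymm hnondeg h h1 h2 h3⟩

end Pool.Agent.Results.MP_d61fbb_ag.UnipotentBlockThree
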